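import Pool.Agent.H660.UK.KSum

/-!
# `(k+1)`-SUM-Indexing: about `n ^ k` space for data structures that compute with unknown inputs

`k` arrays of at most `n` integers from `0, …, N` are preprocessed, given by the bits which tell
which integers belong to which array. A query is an integer `z`: is it a sum of one element of every
array?

For each bit of the input it is known that it is true, known that it is false, or unknown. The cells
of the memory contain elements of an ordered set `D` of states of knowledge, and each of them is an
arbitrary function of the knowledge about the input that respects the order: more knowledge about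
the input gives more knowledge in the cell (unlimited preprocessing). The query reads cells
adaptively, and its answer is not lost when the contents of the memory become larger (`UDS`). `D` is
any partially ordered set in which the elements below a given one form a chain of real numbers
(`TreeLike D`).

* `D` may be the flat order over any set `A`, for instance the set of the machine words of any
  length: a cell is unknown or contains a word. So the structures may store arbitrary functions of
  the input, as long as they store nothing that is not yet determined by what is known.
* `D` may be `ℝ`; these are the monotone data structures.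

(1) Let `k ≥ 2`, `n ^ k ≤ N`, `0 < δ ≤ 1 / 2`, `t ≥ 1` and `40 k ^ 2 t log₂ ((n + r) / δ) ≤ δ n`.
Every random structure of this kind with `s` cells, and with `k r` free places which count as probes
but not as space and which ignore one of the arrays (for instance they may contain the arrays, or
everything about the sums of elements of `k - 1` of the arrays), with advantage `δ` and `t` probes
on the average, has `s ≥ δ * (δ * n / (40 * k ^ 2 * t * log₂ ((n + r) / δ))) ^ k`. So constant query
time needs space `Ω~(n ^ k)` in this model. The answer has to be yes as soon as the elements of the
arrays are known (everything else may be unknown), and not yes if everything is known and `z` is not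
a sum (`USolves`).

(2) There is a three-valued structure with `k N + 1` cells (`k n ^ k + 1` cells if `N = n ^ k`) and
one probe, which makes no errors; the cell for `z` tells, for every partial knowledge about the
arrays, whether it is known that `z` is a sum and whether it is known that `z` is no sum.

Proof of (1). Declare the false bits unknown. The contents of a cell is then below its contents for
the input all of whose bits are true, so that it lies in a chain of real numbers. This gives a
monotone data structure with real cells, and the bound of the library result `AdaptiveMonotone` applies.
-/

set_option autoImplicit false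

namespace Pool.Agent.Results.MP_5e38ef_lc.UnknownInputStructures

open Pool.Agent.H698.HF Pool.Agent.H660.UK
open Pool.Agent.H525R4.Mono (KPlace)
open Flat (unknown known)

theorem result :
    -- (1) the lower bound
    (∀ (k n N s r : ℕ) (δ t : ℝ), 2 ≤ k → n ^ k ≤ N → 0 < δ → δ ≤ 1 / 2 → 1 ≤ t →
      40 * k ^ 2 * t * Real.logb 2 ((n + r) / δ) ≤ δ * n →
      ∀ (D : Type) [PartialOrder D], TreeLike D → ∀ (Ω : Type) [Fintype Ω] (p : Ω → ℝ)
        (S : Ω → UDS D (KPlace k s r) ℤ (Fin k × ℤ) (kign k s r)),
        USolves (Arrays k n N) Sums p S δ t →
          δ * (δ * n / (40 * k ^ 2 * t * Real.logb 2 ((n + r) / δ))) ^ k ≤ s) ∧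
    -- (2) the table
    (∀ k n N : ℕ,
      ∃ T : UDS (Flat Bool) (KPlace k (k * N + 1) 0) ℤ (Fin k × ℤ) (kign k (k * N + 1) 0),
        USolves (Arrays k n N) Sums (fun _ : Unit => 1) (fun _ => T) (1 / 2) 1 ∧
        ∀ z, (∃ x ∈ Arrays k n N, Sums x z) → ∃ c, ∀ P : Know (Fin k × ℤ),
          T.reads z (T.mem P) = {c} ∧
          (T.cont c P = known true ↔ ∀ x, Le P (full x) → Sums x z) ∧
          (T.cont c P = known false ↔ ∀ x, Le P (full x) → ¬ Sums x z)) ∧
    -- (3) the orders
    TreeLike ℝ ∧ ∀ A : Type, TreeLike (Flat A) :=
  ⟨fun _ _ _ _ _ _ _ hk hN hδ hδ2 ht hnt _ _ hD _ _ p S hS =>
      ksum_unknown hD hk hδ hδ2 ht hnt hN p S hS,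
    ksum_table, treeLike_real, fun _ => Flat.treeLike⟩

end Pool.Agent.Results.MP_5e38ef_lc.UnknownInputStructures
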